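import Pool.Agent.H7.KR.Stmts

/-! # Board `kr` (MP_fd41b2_co): row LCA -/

set_option autoImplicit false

open Finset

namespace Pool.KR

open Pool.Agent.H23.KT Pool.Agent.H46.KW Pool.KQ

namespace LCAAux

theorem gam_le_one (p : ℕ) : gam p ≤ 1 := by
  unfold gam
  rw [div_le_one (by positivity)]
  have : (0 : ℝ) ≤ p := Nat.cast_nonneg p
  linarith

theorem gam_le_gw (p i : ℕ) (h : i ≠ p + 2) : gam p ≤ gw p i := by
  unfold gw
  rw [if_neg h]
  split_ifs
  · exact le_refl _
  · exact gam_le_one p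

theorem gw_nonneg (p i : ℕ) : 0 ≤ gw p i := by
  unfold gw gam
  split_ifs <;> positivity

theorem sw_ge {V : Type} [DecidableEq V] (G : SimpleGraph V) (p : ℕ) (W S : Finset V) :
    gam p * ze G (p + 1) W S ≤ sw G p W S := by
  unfold sw ze
  calc gam p * ((W.filter (fun z => (nb G S z).card ≠ p + 1 + 1)).card : ℝ)
      = ∑ z ∈ W.filter (fun z => (nb G S z).card ≠ p + 1 + 1), gam p := by
        rw [sum_const, nsmul_eq_mul, mul_comm]
    _ ≤ ∑ z ∈ W.filter (fun z => (nb G S z).card ≠ p + 1 + 1), gw p (nb G S z).card := by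
        refine sum_le_sum fun z hz => gam_le_gw p _ ?_
        exact (mem_filter.1 hz).2
    _ ≤ ∑ z ∈ W, gw p (nb G S z).card := by
        refine sum_le_sum_of_subset_of_nonneg (filter_subset _ _) fun z _ _ => gw_nonneg p _

theorem gam_ge (p : ℕ) : 5 / 4 / (((p + 1 : ℕ) : ℝ) + 4) ≤ gam p := by
  unfold gam
  rw [div_div, div_le_div_iff₀ (by positivity) (by positivity)]
  push_cast
  have h : (0 : ℝ) ≤ p := Nat.cast_nonneg p
  nlinarith [mul_nonneg h h]

end LCAAux

open LCAAux in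
theorem lca (h : LOC3Stmt) : LCAStmt := by
  intro p hp
  obtain ⟨p, rfl⟩ : ∃ p', p = p' + 1 := ⟨p - 1, by omega⟩
  choose! A hA using h p
  refine ⟨(range (p + 4)).sup A, fun r hr a ha V _ G W hCB hW => ?_⟩
  have h1 : A r ≤ a := le_trans (le_sup (f := A) (mem_range.2 (by omega))) ha
  refine le_trans (sum_le_sum fun S _ => ?_) (hA r (by omega) a h1 G W hCB hW)
  have h2 := sw_ge G p W S
  have h3 : 5 / 4 / (((p + 1 : ℕ) : ℝ) + 4) * ze G (p + 1) W S ≤ gam p * ze G (p + 1) W S :=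
    mul_le_mul_of_nonneg_right (gam_ge p) (Nat.cast_nonneg _)
  have h4 : (p + 1 + 2) * a + r = (p + 3) * a + r := rfl
  refine min_le_min (le_refl _) ?_
  rw [h4]
  linarith

end Pool.KR
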